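import Pool.Agent.Helper94.LG.Sheet

/-! Project LG, row LF: the inequality at the edges whose child is a leaf. -/

set_option autoImplicit false

namespace H11ST
namespace LG
namespace LFaux

/-- case of a label coordinate at most `1 / 2` -/
theorem quad1 (t x : ℝ) (ht : 0 ≤ t) :
    0 ≤ (1 + t + 5 * t ^ 2 + 7 * t ^ 3 + 2 * t ^ 4) * x ^ 2 + (-1 - 4 * t + t ^ 2) * x +
      (295 / 1000 + 142 / 100 * t) := by
  set k2 : ℝ := 1 + t + 5 * t ^ 2 + 7 * t ^ 3 + 2 * t ^ 4 with hk2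
  set k1 : ℝ := -1 - 4 * t + t ^ 2 with hk1
  set k0 : ℝ := 295 / 1000 + 142 / 100 * t with hk0
  have h2 : 0 < k2 := by rw [hk2]; positivity
  have hD : k1 ^ 2 ≤ 4 * k2 * k0 := by
    rw [hk1, hk2, hk0]
    have h3 : 0 ≤ t * (t - 11 / 100) ^ 2 := mul_nonneg ht (sq_nonneg _)
    have h4 : 0 ≤ t ^ 4 := by positivity
    have h5 : 0 ≤ t ^ 5 := by positivity
    nlinarith [sq_nonneg (t - 11 / 100)]
  have h : 0 ≤ 4 * k2 * (k2 * x ^ 2 + k1 * x + k0) := by
    nlinarith [sq_nonneg (2 * k2 * x + k1)]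
  by_contra hc
  push Not at hc
  have := mul_neg_of_pos_of_neg (by linarith : (0 : ℝ) < 4 * k2) hc
  linarith

/-- case of a label coordinate at least `1 / 2` -/
theorem quad2 (t x : ℝ) (ht : 0 ≤ t) :
    0 ≤ (1 - 1 / 2 * t + 5 * t ^ 2 + 7 * t ^ 3 + 2 * t ^ 4) * x ^ 2 + (-1 - t + t ^ 2) * x +
      (295 / 1000 + 295 / 1000 * t) := by
  set k2 : ℝ := 1 - 1 / 2 * t + 5 * t ^ 2 + 7 * t ^ 3 + 2 * t ^ 4 with hk2
  set k1 : ℝ := -1 - t + t ^ 2 with hk1
  set k0 : ℝ := 295 / 1000 + 295 / 1000 * t with hk0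
  have h3 : 0 ≤ t ^ 3 := by positivity
  have h4 : 0 ≤ t ^ 4 := by positivity
  have h5 : 0 ≤ t ^ 5 := by positivity
  have h2 : 0 < k2 := by rw [hk2]; nlinarith [sq_nonneg (t - 1 / 20)]
  have hD : k1 ^ 2 ≤ 4 * k2 * k0 := by
    rw [hk1, hk2, hk0]
    nlinarith [sq_nonneg (t - 11 / 100)]
  have h : 0 ≤ 4 * k2 * (k2 * x ^ 2 + k1 * x + k0) := by
    nlinarith [sq_nonneg (2 * k2 * x + k1)]
  by_contra hc
  push Not at hc
  have := mul_neg_of_pos_of_neg (by linarith : (0 : ℝ) < 4 * k2) hc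
  linarith

/-- polynomial inequality for a coordinate `b ≥ 1 / 2` -/
theorem quad3 (a b : ℝ) (ha : 0 ≤ a) (hb : 1 / 2 ≤ b) (hab : a + b ≤ 1) :
    (1705 / 1000 - 3 * a ^ 2 + b ^ 2 / 2 + 18 / 100 * (1 - a - b)) ^ 2 ≤
      4 * ((1 - a) * (7 / 8 - 2 * a ^ 2) + b ^ 3 / 2 + 3 * b / 8) := by
  obtain ⟨t, rfl⟩ : ∃ t, b = 1 / 2 + t := ⟨b - 1 / 2, by ring⟩
  have ht : 0 ≤ t := by linarith
  have hat : a + t ≤ 1 / 2 := by linarith
  have ha2 : a ≤ 1 / 2 := by linarith
  have ht2 : t ≤ 1 / 2 := by linarith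
  set R0 : ℝ := 192 / 100 - 18 / 100 * a - 3 * a ^ 2 with hR0
  set δ : ℝ := 32 / 100 * t + t ^ 2 / 2 with hδ
  have hR : 1705 / 1000 - 3 * a ^ 2 + (1 / 2 + t) ^ 2 / 2 + 18 / 100 * (1 - a - (1 / 2 + t)) =
      R0 + δ := by rw [hR0, hδ]; ring
  have h0 : R0 ^ 2 ≤ 9 / 2 - 7 / 2 * a - 8 * a ^ 2 + 8 * a ^ 3 := by
    have h3 : 0 ≤ a ^ 3 * (1 / 2 - a) := by
      have : 0 ≤ a ^ 3 := by positivity
      exact mul_nonneg this (by linarith)
    have h4 : 0 ≤ a ^ 3 := by positivity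
    rw [hR0]
    nlinarith [sq_nonneg (a - 4 / 10)]
  have hδ0 : 0 ≤ δ := by rw [hδ]; positivity
  have hR1 : R0 ≤ 192 / 100 := by rw [hR0]; nlinarith [sq_nonneg a]
  have hδ1 : δ ≤ 285 / 1000 := by rw [hδ]; nlinarith
  have h1 : δ * (2 * R0 + δ) ≤ δ * (4125 / 1000) := by
    apply mul_le_mul_of_nonneg_left _ hδ0
    linarith
  have h2 : δ * (4125 / 1000) ≤ 3 * t + 3 * t ^ 2 + 2 * t ^ 3 := by
    have : 0 ≤ t ^ 3 := by positivity
    rw [hδ]
    nlinarith [sq_nonneg t]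
  rw [hR]
  nlinarith

theorem le_add_div {ℓ N c : ℝ} (hℓ : 0 < ℓ) (h : c * ℓ ≤ ℓ ^ 2 + N) : c ≤ ℓ + N / ℓ := by
  have h1 : ℓ + N / ℓ = (ℓ ^ 2 + N) / ℓ := by field_simp
  rw [h1, le_div_iff₀ hℓ]
  exact h

theorem root_le {R C ℓ : ℝ} (h : R ^ 2 ≤ 4 * C) : R * ℓ ≤ ℓ ^ 2 + C := by
  nlinarith [sq_nonneg (2 * ℓ - R)]

theorem fin_le {R C ℓ r q T : ℝ} (hRC : R * ℓ ≤ ℓ ^ 2 + C) (h6 : ℓ ^ 2 / 8 * r ≤ 18 / 100 * r * ℓ)
    (e7 : ℓ * q - ℓ ^ 2 / 8 * r ≤ T) : (R - 18 / 100 * r + q) * ℓ ≤ ℓ ^ 2 + (C + T) := by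
  nlinarith

theorem core {ι : Type} [DecidableEq ι] (S : Finset ι) (v : ι → ℝ) (a ℓ : ℝ)
    (h0 : ∀ k ∈ S, 0 ≤ v k) (ha : 0 ≤ a) (hs : a + ∑ k ∈ S, v k = 1) (hℓ : 0 < ℓ)
    (hℓ2 : ℓ ^ 2 = (1 - a) ^ 2 + ∑ k ∈ S, v k ^ 2) :
    8 / 100 ≤ ℓ + ((1 - a) * (7 / 8 - FF a) + ∑ k ∈ S, v k * FF (v k)) / ℓ - 3 / 2 + 3 * Th a -
      ∑ k ∈ S, Th (v k) := by
  by_cases hbig : ∃ k0 ∈ S, 1 / 2 < v k0
  · obtain ⟨k0, hk0, hb⟩ := hbig
    have e1 := Finset.add_sum_erase S v hk0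
    have e2 := Finset.add_sum_erase S (fun k => v k ^ 2) hk0
    have e3 := Finset.add_sum_erase S (fun k => v k * FF (v k)) hk0
    have e4 := Finset.add_sum_erase S (fun k => Th (v k)) hk0
    set b := v k0 with hbdef
    set r := ∑ k ∈ S.erase k0, v k with hr
    set q := ∑ k ∈ S.erase k0, v k ^ 2 with hq
    have hv0 : ∀ k ∈ S.erase k0, 0 ≤ v k := fun k hk => h0 k (Finset.mem_of_mem_erase hk)
    have hvr : ∀ k ∈ S.erase k0, v k ≤ r := fun k hk => Finset.single_le_sum hv0 hk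
    have hr0 : 0 ≤ r := Finset.sum_nonneg hv0
    have hab : a + (b + r) = 1 := by rw [e1]; exact hs
    have hqr : q ≤ r ^ 2 := by
      calc q ≤ ∑ k ∈ S.erase k0, r * v k := Finset.sum_le_sum fun k hk => by
            nlinarith [hv0 k hk, hvr k hk]
        _ = r * r := by rw [← Finset.mul_sum]
        _ = r ^ 2 := by ring
    have e5 : ∑ k ∈ S.erase k0, Th (v k) = q := Finset.sum_congr rfl fun k hk => by
      have := hvr k hk
      rw [Th, if_pos (by linarith)]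
    have e6 : ∑ k ∈ S.erase k0, v k * FF (v k) = ∑ k ∈ S.erase k0, 2 * v k ^ 3 :=
      Finset.sum_congr rfl fun k hk => by
        have := hvr k hk
        rw [FF, if_pos (by linarith)]
        ring
    have e7 : ℓ * q - ℓ ^ 2 / 8 * r ≤ ∑ k ∈ S.erase k0, 2 * v k ^ 3 := by
      rw [hq, hr, Finset.mul_sum, Finset.mul_sum, ← Finset.sum_sub_distrib]
      apply Finset.sum_le_sum
      intro k hk
      have := mul_nonneg (hv0 k hk) (sq_nonneg (4 * v k - ℓ))
      nlinarith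
    have hFa : FF a = 2 * a ^ 2 := by rw [FF, if_pos (by linarith)]
    have hTa : Th a = a ^ 2 := by rw [Th, if_pos (by linarith)]
    have hFb : FF b = b ^ 2 / 2 + 3 / 8 := by rw [FF, if_neg (by linarith)]
    have hTb : Th b = b ^ 2 / 2 + 1 / 8 := by rw [Th, if_neg (by linarith)]
    have hℓ3 : ℓ ^ 2 = (1 - a) ^ 2 + (b ^ 2 + q) := by rw [hℓ2, ← e2]
    have hℓ4 : ℓ ≤ 142 / 100 := by
      have h1 : ℓ ^ 2 ≤ 2 := by
        rw [hℓ3]
        have hbr : 0 ≤ b * r := mul_nonneg (by linarith) hr0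
        have h2 : b ^ 2 + q ≤ (b + r) ^ 2 := by
          have : (b + r) ^ 2 = b ^ 2 + r ^ 2 + 2 * (b * r) := by ring
          linarith
        have h3 : b + r = 1 - a := by linarith
        have h4 : (1 - a) ^ 2 ≤ 1 := by
          have : 0 ≤ a * (2 - a) := mul_nonneg ha (by linarith)
          have e : (1 - a) ^ 2 = 1 - a * (2 - a) := by ring
          linarith
        rw [h3] at h2
        linarith
      by_contra hc
      push Not at hc
      nlinarith
    have hquad := quad3 a b ha hb.le (by linarith)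
    set R : ℝ := 1705 / 1000 - 3 * a ^ 2 + b ^ 2 / 2 + 18 / 100 * (1 - a - b) with hR
    set C : ℝ := (1 - a) * (7 / 8 - 2 * a ^ 2) + b ^ 3 / 2 + 3 * b / 8 with hC
    have hRC : R * ℓ ≤ ℓ ^ 2 + C := root_le hquad
    rw [← e3, ← e4, e5, e6, hFa, hTa, hFb, hTb]
    have hgoal : 8 / 100 + 3 / 2 - 3 * a ^ 2 + (b ^ 2 / 2 + 1 / 8 + q) ≤
        ℓ + ((1 - a) * (7 / 8 - 2 * a ^ 2) + (b * (b ^ 2 / 2 + 3 / 8) +
          ∑ k ∈ S.erase k0, 2 * v k ^ 3)) / ℓ := by
      apply le_add_div hℓ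
      have h6 : ℓ ^ 2 / 8 * r ≤ 18 / 100 * r * ℓ := by
        have h5 : 0 ≤ r * ℓ := mul_nonneg hr0 hℓ.le
        have h9 : ℓ ^ 2 / 8 * r = (r * ℓ) * (ℓ / 8) := by ring
        have h10 : 18 / 100 * r * ℓ = (r * ℓ) * (18 / 100) := by ring
        rw [h9, h10]
        exact mul_le_mul_of_nonneg_left (by linarith) h5
      have h7 : (1 - a) * (7 / 8 - 2 * a ^ 2) + (b * (b ^ 2 / 2 + 3 / 8) +
          ∑ k ∈ S.erase k0, 2 * v k ^ 3) = C + ∑ k ∈ S.erase k0, 2 * v k ^ 3 := by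
        rw [hC]; ring
      have h8 : 8 / 100 + 3 / 2 - 3 * a ^ 2 + (b ^ 2 / 2 + 1 / 8 + q) =
          R - 18 / 100 * r + q := by
        rw [hR, show 1 - a - b = r by linarith]; ring
      rw [h7, h8]
      exact fin_le hRC h6 e7
    linarith
  · push Not at hbig
    have e5 : ∑ k ∈ S, Th (v k) = ∑ k ∈ S, v k ^ 2 := Finset.sum_congr rfl fun k hk => by
      rw [Th, if_pos (hbig k hk)]
    have e6 : ∑ k ∈ S, v k * FF (v k) = ∑ k ∈ S, 2 * v k ^ 3 :=
      Finset.sum_congr rfl fun k hk => by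
        rw [FF, if_pos (hbig k hk)]
        ring
    rw [e5, e6, ← Finset.mul_sum]
    set q := ∑ k ∈ S, v k ^ 2 with hq
    set c := ∑ k ∈ S, v k ^ 3 with hc
    have hx0 : 0 ≤ 1 - a := by
      have := Finset.sum_nonneg h0
      linarith
    have hxs : ∑ k ∈ S, v k = 1 - a := by linarith
    have hq0 : 0 ≤ q := Finset.sum_nonneg fun k _ => sq_nonneg _
    have hCS : q ^ 2 ≤ (1 - a) * c := by
      rw [← hxs]
      apply Finset.sum_sq_le_sum_mul_sum_of_sq_le_mul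
      · exact h0
      · intro k hk
        have := h0 k hk
        positivity
      · intro k _
        exact le_of_eq (by ring)
    rcases hx0.eq_or_lt with hx | hx
    · exfalso
      have h1 : q = 0 := by
        rw [hq]
        apply Finset.sum_eq_zero
        intro k hk
        have h2 : v k ≤ 0 := by
          have := Finset.single_le_sum h0 hk
          linarith
        have h3 := h0 k hk
        nlinarith
      rw [h1, ← hx] at hℓ2
      nlinarith
    · obtain ⟨x, hxa⟩ : ∃ x, a = 1 - x := ⟨1 - a, by ring⟩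
      subst hxa
      have hx' : 0 < x := by linarith
      obtain ⟨t, hℓt⟩ : ∃ t, ℓ = x * (1 + t) := ⟨ℓ / x - 1, by field_simp; ring⟩
      have hqt : q = x ^ 2 * (2 * t + t ^ 2) := by
        have : q = ℓ ^ 2 - x ^ 2 := by rw [hℓ2]; ring
        rw [this, hℓt]; ring
      have ht : 0 ≤ t := by
        by_contra hct
        push Not at hct
        have h1 : 0 < 1 + t := by
          by_contra h2
          push Not at h2
          have := mul_nonpos_of_nonneg_of_nonpos hx'.le h2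
          linarith
        have h2 : x ^ 2 * (2 * t + t ^ 2) < 0 := by
          apply mul_neg_of_pos_of_neg (by positivity)
          nlinarith
        linarith
      have hct : x ^ 3 * (2 * t + t ^ 2) ^ 2 ≤ c := by
        have h1 : x * (x ^ 3 * (2 * t + t ^ 2) ^ 2) ≤ x * c := by
          calc x * (x ^ 3 * (2 * t + t ^ 2) ^ 2) = q ^ 2 := by rw [hqt]; ring
            _ ≤ (1 - (1 - x)) * c := hCS
            _ = x * c := by ring
        exact le_of_mul_le_mul_left h1 hx'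
      by_cases ha2 : 1 - x ≤ 1 / 2
      · have hFa : FF (1 - x) = 2 * (1 - x) ^ 2 := by rw [FF, if_pos ha2]
        have hTa : Th (1 - x) = (1 - x) ^ 2 := by rw [Th, if_pos ha2]
        rw [hFa, hTa]
        have hgoal : 8 / 100 + 3 / 2 - 3 * (1 - x) ^ 2 + q ≤
            ℓ + ((1 - (1 - x)) * (7 / 8 - 2 * (1 - x) ^ 2) + 2 * c) / ℓ := by
          apply le_add_div hℓ
          have h1 := mul_nonneg hx'.le (quad1 t x ht)
          rw [hqt, hℓt]
          nlinarith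
        linarith
      · have hFa : FF (1 - x) = (1 - x) ^ 2 / 2 + 3 / 8 := by rw [FF, if_neg ha2]
        have hTa : Th (1 - x) = (1 - x) ^ 2 / 2 + 1 / 8 := by rw [Th, if_neg ha2]
        rw [hFa, hTa]
        have hgoal : 8 / 100 + 3 / 2 - 3 * ((1 - x) ^ 2 / 2 + 1 / 8) + q ≤
            ℓ + ((1 - (1 - x)) * (7 / 8 - ((1 - x) ^ 2 / 2 + 3 / 8)) + 2 * c) / ℓ := by
          apply le_add_div hℓ
          have h1 := mul_nonneg hx'.le (quad2 t x ht)
          rw [hqt, hℓt]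
          nlinarith
        linarith

end LFaux

open LFaux

/-- the inequality holds without a condition on the norm -/
theorem lf_all (d : ℕ) (v : E d) (hv : v ∈ Dl d) (j : Fin d) :
    8 / 100 ≤ SL v (tm d j) + (sT v - 1 / 4) := by
  obtain ⟨hv0, hv1⟩ := hv
  have hsum : v j + ∑ k ∈ Finset.univ.erase j, v k = 1 := by
    rw [Finset.add_sum_erase Finset.univ (fun k => v k) (Finset.mem_univ j)]
    exact hv1
  have htm : ∀ k, tm d j k = if k = j then 1 else 0 := by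
    intro k
    rw [tm]
    by_cases hk : k = j
    · subst hk; simp
    · simp [hk]
  have hFF1 : FF 1 = 7 / 8 := by rw [FF, if_neg (by norm_num)]; norm_num
  have hFF0 : FF 0 = 0 := by rw [FF, if_pos (by norm_num)]; norm_num
  have hTh1 : Th 1 = 5 / 8 := by rw [Th, if_neg (by norm_num)]; norm_num
  have hTh0 : Th 0 = 0 := by rw [Th, if_pos (by norm_num)]; norm_num
  have hvj : v j ≤ 1 := by
    have : 0 ≤ ∑ k ∈ Finset.univ.erase j, v k := Finset.sum_nonneg fun k _ => hv0 k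
    linarith
  have hThn : ∀ x : ℝ, 0 ≤ Th x := by
    intro x
    rw [Th]
    split_ifs <;> positivity
  have hThle : Th (v j) ≤ 5 / 8 := by
    rw [Th]
    split_ifs with h
    · nlinarith [hv0 j]
    · nlinarith [hv0 j]
  -- the norm
  have hnorm : ‖v - tm d j‖ ^ 2 = (1 - v j) ^ 2 + ∑ k ∈ Finset.univ.erase j, v k ^ 2 := by
    rw [EuclideanSpace.norm_sq_eq, ← Finset.add_sum_erase Finset.univ _ (Finset.mem_univ j)]
    congr 1
    · rw [PiLp.sub_apply, htm, if_pos rfl, Real.norm_eq_abs, sq_abs]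
      ring
    · apply Finset.sum_congr rfl
      intro k hk
      rw [PiLp.sub_apply, htm, if_neg (Finset.ne_of_mem_erase hk), Real.norm_eq_abs, sq_abs]
      ring
  have hinner : inner ℝ (v - tm d j) (XX v - XX (tm d j)) =
      (1 - v j) * (7 / 8 - FF (v j)) + ∑ k ∈ Finset.univ.erase j, v k * FF (v k) := by
    rw [PiLp.inner_apply, ← Finset.add_sum_erase Finset.univ _ (Finset.mem_univ j)]
    congr 1
    · simp only [XX, PiLp.sub_apply, htm, if_true, hFF1]
      simp only [RCLike.inner_apply, conj_trivial]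
      ring
    · apply Finset.sum_congr rfl
      intro k hk
      simp only [XX, PiLp.sub_apply, htm, if_neg (Finset.ne_of_mem_erase hk), hFF0]
      simp only [RCLike.inner_apply, conj_trivial]
      ring
  have hTE : TE v (tm d j) = 2 * (5 / 8 - Th (v j) + ∑ k ∈ Finset.univ.erase j, Th (v k)) := by
    rw [TE, ← Finset.add_sum_erase Finset.univ _ (Finset.mem_univ j)]
    congr 2
    · rw [htm, if_pos rfl, hTh1, abs_sub_comm, abs_of_nonneg (by linarith)]
    · apply Finset.sum_congr rfl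
      intro k hk
      rw [htm, if_neg (Finset.ne_of_mem_erase hk), hTh0, sub_zero, abs_of_nonneg (hThn _)]
  have hsT : sT v = Th (v j) + ∑ k ∈ Finset.univ.erase j, Th (v k) := by
    rw [sT, ← Finset.add_sum_erase Finset.univ _ (Finset.mem_univ j)]
  rcases (norm_nonneg (v - tm d j)).eq_or_lt with h | h
  · -- `v` is the terminal
    have hv : v = tm d j := by
      rw [← sub_eq_zero, ← norm_eq_zero]
      exact h.symm
    have hj : v j = 1 := by rw [hv, htm, if_pos rfl]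
    have hk : ∑ k ∈ Finset.univ.erase j, Th (v k) = 0 := by
      apply Finset.sum_eq_zero
      intro k hk
      rw [hv, htm, if_neg (Finset.ne_of_mem_erase hk), hTh0]
    rw [SL, EE, hTE, hsT, hk, hj, hTh1, ← h]
    norm_num
  · have hc := core (Finset.univ.erase j) (fun k => v k) (v j) ‖v - tm d j‖
      (fun k _ => hv0 k) (hv0 j) hsum h hnorm
    rw [SL, EE, hTE, hsT, hinner]
    linarith

theorem lf : LG_LF := fun d v hv _ j => lf_all d v hv j

end LG
end H11ST
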